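import Pool.Agent.J6H65.RG.StT

/-!
# Module N2: a homomorphism to a field which kills no normal form
-/

set_option autoImplicit false

namespace Pool.Agent.J6H70.RG

open MvPolynomial

section Field

variable {K L : Type} [Field K] [Field L] [Algebra K L]

/-- `1, s` are independent over `K` if `G = s ^ 2` is not a square in `K`. -/
theorem ind1 {G c d : K} {s : L} (hs : s * s = algebraMap K L G) (hG : ¬ IsSquare G)
    (h : algebraMap K L c + algebraMap K L d * s = 0) : c = 0 ∧ d = 0 := by
  have inj := (algebraMap K L).injective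
  have hd : d = 0 := by
    by_contra hd
    apply hG
    have hd' : algebraMap K L d ≠ 0 := by simpa using hd
    have e : s = algebraMap K L (-c / d) := by
      rw [map_div₀, map_neg, eq_div_iff hd']
      linear_combination h
    refine ⟨-c / d, inj ?_⟩
    rw [map_mul, ← e, hs]
  subst hd
  refine ⟨?_, rfl⟩
  simpa using h

theorem ind2 {F G a b c d : K} {r s : L} (hr : r * r = algebraMap K L F)
    (hs : s * s = algebraMap K L G) (hF : ¬ IsSquare F) (hG : ¬ IsSquare G)
    (hFG : ¬ IsSquare (F * G)) (h2 : (2 : K) ≠ 0)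
    (h : algebraMap K L a + r * algebraMap K L b + s * algebraMap K L c +
      r * s * algebraMap K L d = 0) : a = 0 ∧ b = 0 ∧ c = 0 ∧ d = 0 := by
  have hbd : b = 0 ∧ d = 0 := by
    by_contra hbd
    have h1 : algebraMap K L b + algebraMap K L d * s ≠ 0 := fun h0 => hbd (ind1 hs hG h0)
    have h1' : algebraMap K L b + algebraMap K L (-d) * s ≠ 0 := fun h0 => by
      have := ind1 hs hG h0
      exact hbd ⟨this.1, by simpa using this.2⟩
    have hN : algebraMap K L (b ^ 2 - d ^ 2 * G) ≠ 0 := by
      have e : algebraMap K L (b ^ 2 - d ^ 2 * G) =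
          (algebraMap K L b + algebraMap K L d * s) *
          (algebraMap K L b + algebraMap K L (-d) * s) := by
        simp only [map_sub, map_mul, map_pow, map_neg, ← hs]
        ring
      rw [e]
      exact mul_ne_zero h1 h1'
    have hN' : b ^ 2 - d ^ 2 * G ≠ 0 := fun h0 => hN (by rw [h0, map_zero])
    set α : K := -(a * b - c * d * G) / (b ^ 2 - d ^ 2 * G) with hα
    set β : K := -(c * b - a * d) / (b ^ 2 - d ^ 2 * G) with hβ
    have er : r = algebraMap K L α + algebraMap K L β * s := by
      have e1 : r * algebraMap K L (b ^ 2 - d ^ 2 * G) =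
          algebraMap K L (-(a * b - c * d * G)) + algebraMap K L (-(c * b - a * d)) * s := by
        simp only [map_sub, map_mul, map_pow, map_neg, ← hs]
        linear_combination (algebraMap K L b - algebraMap K L d * s) * h
      rw [hα, hβ, map_div₀, map_div₀, div_mul_eq_mul_div, ← add_div, eq_div_iff hN]
      exact e1
    have e2 : algebraMap K L (α ^ 2 + β ^ 2 * G - F) + algebraMap K L (2 * α * β) * s = 0 := by
      simp only [map_sub, map_add, map_mul, map_pow, map_ofNat, ← hs, ← hr]
      rw [er]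
      ring
    obtain ⟨e3, e4⟩ := ind1 hs hG e2
    have e5 : α = 0 ∨ β = 0 := by
      rcases mul_eq_zero.1 e4 with h0 | h0
      · rcases mul_eq_zero.1 h0 with h0 | h0
        · exact absurd h0 h2
        · exact Or.inl h0
      · exact Or.inr h0
    rcases e5 with h0 | h0
    · apply hFG
      rw [h0] at e3
      exact ⟨β * G, by linear_combination (-G) * e3⟩
    · apply hF
      rw [h0] at e3
      exact ⟨α, by linear_combination -e3⟩
  obtain ⟨rfl, rfl⟩ := hbd
  have := ind1 (c := a) (d := c) hs hG (by simpa [mul_comm] using h)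
  exact ⟨this.1, rfl, this.2, rfl⟩

end Field

theorem not_sq_frac {F : MvPolynomial (Fin 2) ℂ} (hF : ¬ IsSquare F) :
    ¬ IsSquare (algebraMap (MvPolynomial (Fin 2) ℂ) (FractionRing (MvPolynomial (Fin 2) ℂ)) F) := by
  rintro ⟨y, hy⟩
  have inj := IsFractionRing.injective (MvPolynomial (Fin 2) ℂ)
    (FractionRing (MvPolynomial (Fin 2) ℂ))
  have hint : IsIntegral (MvPolynomial (Fin 2) ℂ) (y ^ 2) := by
    rw [pow_two, ← hy]
    exact isIntegral_algebraMap
  obtain ⟨z, hz⟩ := IsIntegrallyClosed.exists_algebraMap_eq_of_isIntegral_pow (R := MvPolynomial (Fin 2) ℂ)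
    two_pos hint
  refine hF ⟨z, inj ?_⟩
  rw [map_mul, hz, hy]

theorem s_n2 : Pool.Agent.J6H65.RG.S_N2 := by
  intro F G hF hG hFG
  let R := MvPolynomial (Fin 2) ℂ
  let K := FractionRing R
  let L := AlgebraicClosure K
  obtain ⟨r, hr⟩ := IsAlgClosed.exists_pow_nat_eq (algebraMap K L (algebraMap R K F)) two_pos
  obtain ⟨s, hs⟩ := IsAlgClosed.exists_pow_nat_eq (algebraMap K L (algebraMap R K G)) two_pos
  rw [pow_two] at hr hs
  let ι : R →ₐ[ℂ] L := (IsScalarTower.toAlgHom ℂ K L).comp (IsScalarTower.toAlgHom ℂ R K)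
  have hι : ∀ A : R, ι A = algebraMap K L (algebraMap R K A) := fun A => rfl
  let Φ : MvPolynomial (Fin 4) ℂ →ₐ[ℂ] L := aeval ![r, s, ι (X 0), ι (X 1)]
  have hΦ : ∀ A : R, Φ (Pool.Agent.J6H65.RG.rn A) = ι A := by
    intro A
    have e : (Φ.comp (rename ![2, 3])) = ι := by
      apply MvPolynomial.algHom_ext
      intro i
      fin_cases i <;> simp [Φ]
    exact congrArg (fun f : R →ₐ[ℂ] L => f A) e
  have h0 : Φ (X 0) = r := by simp [Φ]
  have h1 : Φ (X 1) = s := by simp [Φ]
  refine ⟨L, inferInstance, inferInstance, Φ, ?_, ?_⟩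
  · intro f hf
    have hle : Pool.Agent.J6H65.RG.tJ F G ≤ RingHom.ker Φ := by
      unfold Pool.Agent.J6H65.RG.tJ
      rw [Ideal.span_le]
      rintro g (rfl | hg)
      · show Φ _ = 0
        rw [map_sub, map_pow, h0, hΦ, hι, pow_two, hr, sub_self]
      · rw [Set.mem_singleton_iff] at hg
        subst hg
        show Φ _ = 0
        rw [map_sub, map_pow, h1, hΦ, hι, pow_two, hs, sub_self]
    exact hle hf
  · intro A B C D h
    unfold Pool.Agent.J6H65.RG.nf at h
    simp only [map_add, map_mul, h0, h1, hΦ, hι] at h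
    have inj := IsFractionRing.injective R K
    have hFG' : ¬ IsSquare (algebraMap R K F * algebraMap R K G) := by
      rw [← map_mul]; exact not_sq_frac hFG
    obtain ⟨ha, hb, hc, hd⟩ := ind2 hr hs (not_sq_frac hF) (not_sq_frac hG) hFG' two_ne_zero h
    exact ⟨inj (by rw [ha, map_zero]), inj (by rw [hb, map_zero]), inj (by rw [hc, map_zero]),
      inj (by rw [hd, map_zero])⟩

end Pool.Agent.J6H70.RG
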